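import Pool.Agent.N795.BV.Stm
import Pool.Agent.V1148.Bor.B

/-!
# Borcea's `p`-variance inequality (project BV of helper795): the equality case of Sendov's theorem
in the form needed (by helper18)
-/

set_option autoImplicit false

open Polynomial

namespace Pool.Agent.N795.BV

namespace H18

variable {m : ℕ}

theorem deg (z : Fin (m + 1) → ℂ) : (∏ k, (X - C (z k))).natDegree = m + 1 := by
  rw [natDegree_finset_prod_X_sub_C_eq_card, Finset.card_univ, Fintype.card_fin]

theorem ne0 {n : ℕ} (z : Fin n → ℂ) : (∏ k, (X - C (z k))) ≠ 0 :=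
  (monic_prod_X_sub_C z Finset.univ).ne_zero

theorem mem_roots_prod {n : ℕ} (z : Fin n → ℂ) (x : ℂ) :
    x ∈ (∏ k, (X - C (z k))).roots ↔ ∃ k, x = z k := by
  rw [mem_roots (ne0 z), IsRoot.def, eval_prod, Finset.prod_eq_zero_iff]
  simp only [Finset.mem_univ, true_and, eval_sub, eval_X, eval_C, sub_eq_zero]

theorem mem_roots_der {z : Fin (m + 1) → ℂ} {w : Fin m → ℂ} (h : Rel z w) (x : ℂ) :
    x ∈ (derivative (∏ k, (X - C (z k)))).roots ↔ ∃ i, x = w i := by
  have hm : ((m : ℂ) + 1) ≠ 0 := by exact_mod_cast Nat.succ_ne_zero m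
  rw [h, roots_C_mul _ hm, mem_roots_prod]

end H18

open H18 Pool.Agent.V1148.Bor in
/-- **the equality case of Sendov's theorem** -/
theorem sen (hS : S_SUMW) : S_SEN := by
  intro m hm z w c k hrel hz h
  have hne : Nonempty (Fin m) := ⟨⟨0, hm⟩⟩
  obtain ⟨i0, hi0⟩ := Finite.exists_min fun i => ‖w i - z k‖
  obtain ⟨a, b, c', ha, hF⟩ := pure_of_disc (F := ∏ k, (X - C (z k))) (c := c)
    (R := ‖w i0 - z k‖) (z := z k) (by rw [deg]; omega) (norm_nonneg _)
    (fun x hx => by
      obtain ⟨j, rfl⟩ := (mem_roots_prod z x).1 hx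
      exact h i0 j)
    ((mem_roots_prod z _).2 ⟨k, rfl⟩)
    (le_csInf ⟨_, w i0, (mem_roots_der hrel _).2 ⟨i0, rfl⟩, rfl⟩ (by
      rintro _ ⟨x, hx, rfl⟩
      obtain ⟨i, rfl⟩ := (mem_roots_der hrel x).1 hx
      rw [norm_sub_rev (z k)]
      exact hi0 i))
  rw [deg] at hF
  have hm1 : ((m : ℂ) + 1) ≠ 0 := by exact_mod_cast Nat.succ_ne_zero m
  have hw : ∀ i, w i = c' := by
    intro i
    have h1 : (derivative (∏ k, (X - C (z k)))).eval (w i) = 0 := by
      have := (mem_roots_der hrel (w i)).2 ⟨i, rfl⟩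
      exact (mem_roots'.1 this).2
    rw [hF] at h1
    simp only [derivative_sub, derivative_C, sub_zero, derivative_C_mul, derivative_X_sub_C_pow,
      eval_mul, eval_C, eval_pow, eval_sub, eval_X, Nat.add_sub_cancel, Nat.cast_add,
      Nat.cast_one] at h1
    rcases mul_eq_zero.1 h1 with h2 | h2
    · exact absurd h2 ha
    · rcases mul_eq_zero.1 h2 with h3 | h3
      · exact absurd h3 (by simpa using hm1)
      · exact sub_eq_zero.1 (pow_eq_zero_iff (by omega) |>.1 h3)
  have h4 := hS m z w hrel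
  rw [hz, mul_zero, Finset.sum_congr rfl fun i _ => hw i, Finset.sum_const, Finset.card_univ,
    Fintype.card_fin, nsmul_eq_mul] at h4
  have hm0 : (m : ℂ) ≠ 0 := by exact_mod_cast (by omega : m ≠ 0)
  have h5 : c' = 0 := by
    rcases mul_eq_zero.1 h4 with h6 | h6
    · exact absurd h6 hm1
    · exact (mul_eq_zero.1 h6).resolve_left hm0
  intro i
  rw [hw i, h5]

end Pool.Agent.N795.BV
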